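import Pool.Agent.H23.LB.Targets

/-!
# (FN) the family is finite
-/

set_option autoImplicit false

open NumberField NumberField.InfinitePlace NumberField.Units
  NumberField.Units.dirichletUnitTheorem MeasureTheory Set Filter Complex

namespace Pool.Agent.H77.GLA

open Pool.Agent.H25.HK Pool.Agent.H23.LB Pool.Agent.H28.RC

/-- a lower bound for the completed `L`-function -/
lemma lam_lower (hUZ : T_UZ) (hSE : T_SE) (hGD : T_GD) (K : Type) [Field K] [NumberField K]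
    (f : Ideal (𝓞 K)) (R : ℝ) (hf : f ≠ ⊥) (D : Sys K f) (S : Finset (RP K)) :
    ∃ σ m : ℝ, 1 < σ ∧ 0 < m ∧ ∀ χ ∈ fam K f R, χ.S = S → m ≤ ‖Lam D χ 0 (σ : ℂ)‖ := by
  obtain ⟨σ, hσ, hser⟩ := hSE.2.2 K f hf
  obtain ⟨c, hc, hg⟩ := (hGD K S 0).2.2 σ R (by linarith)
  have hcw : 0 < cw K := by
    unfold cw
    have h1 : 0 < torsionOrder K := torsionOrder_pos K
    positivity
  have hN : 0 < dN K f := by
    unfold dN Nf
    have h1 : 0 < Ideal.absNorm f := Nat.pos_of_ne_zero fun h => hf (Ideal.absNorm_eq_zero_iff.mp h)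
    have h2 : (discr K : ℝ) ≠ 0 := by exact_mod_cast discr_ne_zero K
    positivity
  refine ⟨σ, cw K * dN K f ^ σ * c * (1 / 2), hσ, by positivity, ?_⟩
  intro χ hχ hS
  have h1 := hUZ K f hf D χ 0 (by simpa using by positivity) (σ : ℂ) (by simpa using hσ)
  have h2 : cexp (-(((0 : ℝ) : ℂ) * (Module.finrank ℚ K * (σ : ℂ)) / 2) * I) = 1 := by
    simp
  rw [h2, mul_one] at h1
  rw [h1, norm_mul, norm_mul, norm_mul]
  have h3 : ‖(((dN K f : ℝ) : ℂ)) ^ (σ : ℂ)‖ = dN K f ^ σ := by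
    rw [Complex.norm_cpow_eq_rpow_re_of_pos hN]
    simp
  have h4 : ‖(cw K : ℂ)‖ = cw K := by
    rw [Complex.norm_real, Real.norm_of_nonneg hcw.le]
  rw [h3, h4, hS]
  have h5 : c ≤ ‖gS K S χ.ν (σ : ℂ)‖ := hg χ.ν hχ
  gcongr
  exact hser χ

theorem pf_FN (hBE : T_BE) (hUZ : T_UZ) (hAZ : T_AZ) (hSE : T_SE) (hGD : T_GD) (hSY : T_SY) :
    T_FN := by
  classical
  intro K _ _ f R hf
  obtain ⟨D⟩ := hSY K f hf
  have key : ∀ S : Finset (RP K), {χ : HC K f | χ ∈ fam K f R ∧ χ.S = S}.Finite := by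
    intro S
    obtain ⟨σ, m, hσ, hm, hlow⟩ := lam_lower hUZ hSE hGD K f R hf D S
    set F : D.ι → K → logSpace K → ℂ := fun c r z => EZ K S f (D.M c) r 0 z (σ : ℂ) with hF
    have hcont : ∀ c, ∀ r ∈ D.X c, Continuous (F c r) := by
      intro c r hr
      have hr' : r ∈ D.M c := (D.rep c).1 r hr
      have h1 := (hAZ K S f (D.M c) r 0 hf (D.reps.1 c) hr' (by simpa using by positivity)).2.1
        (σ : ℂ)
      simp only [hF]
      unfold EZ
      exact (h1.sub continuous_const).sub continuous_const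
    set C : ℝ := ((classNumber K : ℝ) * regulator K * Phi K f) *
        ∑ c, ∑ r ∈ D.X c, ∫ z in Fd K, ‖F c r z‖ ^ 2 with hC
    by_contra hinf
    obtain ⟨n, hn⟩ := exists_nat_gt (C / m ^ 2)
    obtain ⟨Y, hY, hYc⟩ := Set.Infinite.exists_subset_card_eq hinf n
    have hYS : ∀ χ ∈ Y, χ.S = S := fun χ hχ => (hY hχ).2
    have hB := hBE K f hf D S Y hYS F hcont
    have hL : ∀ χ ∈ Y, m ^ 2 ≤ ‖∑ c, ∑ r ∈ D.X c, cf χ (D.M c) r *
        ∫ z in Fd K, ec K χ.ν z * F c r z‖ ^ 2 := by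
      intro χ hχ
      have h1 := hlow χ (hY hχ).1 (hYS χ hχ)
      have h2 : Lam D χ 0 (σ : ℂ) = ∑ c, ∑ r ∈ D.X c, cf χ (D.M c) r *
          ∫ z in Fd K, ec K χ.ν z * F c r z := by
        unfold Lam
        rw [hYS χ hχ]
      rw [← h2]
      exact pow_le_pow_left₀ hm.le h1 2
    have h3 : (Y.card : ℝ) * m ^ 2 ≤ C := by
      refine le_trans ?_ hB
      rw [← nsmul_eq_mul]
      exact Finset.card_nsmul_le_sum _ _ _ hL
    rw [hYc] at h3
    have h4 : C < n * m ^ 2 := by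
      rwa [div_lt_iff₀ (by positivity)] at hn
    linarith
  have hU : fam K f R ⊆ ⋃ S : Finset (RP K), {χ : HC K f | χ ∈ fam K f R ∧ χ.S = S} := by
    intro χ hχ
    exact Set.mem_iUnion.2 ⟨χ.S, hχ, rfl⟩
  exact (Set.finite_iUnion key).subset hU

end Pool.Agent.H77.GLA
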