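import Pool.Agent.H23.LB.Targets
import Pool.Agent.H63.HK.DS
import Pool.Agent.H76.HK.EP

/-!
# (SE) absolute convergence of the series
-/

set_option autoImplicit false

open NumberField NumberField.InfinitePlace Complex Set Filter Topology

namespace Pool.Agent.H77.GLA

open Pool.Agent.H25.HK Pool.Agent.H23.LB Pool.Agent.H28.RC

section

variable {K : Type} [Field K] [NumberField K]

abbrev NZ (K : Type) [Field K] [NumberField K] : Type := {I : Ideal (𝓞 K) // I ≠ ⊥}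

lemma norm_pos (I : NZ K) : 0 < Ideal.absNorm I.1 :=
  Nat.pos_of_ne_zero fun h => I.2 (Ideal.absNorm_eq_zero_iff.mp h)

lemma norm_cpow (I : NZ K) (s : ℂ) :
    ‖(Ideal.absNorm I.1 : ℂ) ^ (-s)‖ = (Ideal.absNorm I.1 : ℝ) ^ (-s.re) := by
  rw [Complex.norm_natCast_cpow_of_pos (norm_pos I), neg_re]

lemma summable_real (K : Type) [Field K] [NumberField K] (σ : ℝ) (hσ : 1 < σ) :
    Summable (fun I : NZ K => (Ideal.absNorm I.1 : ℝ) ^ (-σ)) := by
  have h := (Pool.Agent.H63.HK.ds K (σ : ℂ) (by simpa using hσ)).1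
  refine h.congr fun I => ?_
  rw [norm_cpow]
  simp

lemma tsum_real (K : Type) [Field K] [NumberField K] (σ : ℝ) (hσ : 1 < σ) :
    ((∑' I : NZ K, (Ideal.absNorm I.1 : ℝ) ^ (-σ) : ℝ) : ℂ) = dedekindZeta K (σ : ℂ) := by
  rw [(Pool.Agent.H63.HK.ds K (σ : ℂ) (by simpa using hσ)).2, Complex.ofReal_tsum]
  refine tsum_congr fun I => ?_
  rw [Complex.ofReal_cpow (by positivity)]
  simp

lemma psi_le {f : Ideal (𝓞 K)} (χ : HC K f) (I : NZ K) : ‖χ.ψ I.1‖ ≤ 1 := by
  by_cases h : I.1 ⊔ f = ⊤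
  · exact (χ.norm_one I.1 I.2 h).le
  · rw [χ.eq_zero I.1 h]
    simp

end

theorem pf_SE : T_SE := by
  refine ⟨fun K _ _ s hs => (Pool.Agent.H63.HK.ds K s hs).1, ?_, ?_⟩
  · intro n σ hσ
    refine ⟨(∑' m : ℕ, (m : ℝ) ^ (-σ)) ^ n, ?_⟩
    intro K _ _ hn
    obtain ⟨h, h0, -, -, h1, h2, -⟩ := Pool.Agent.H76.HK.ep K
    have hs : Summable (fun m : ℕ => (m : ℝ) ^ (-σ)) := Real.summable_nat_rpow.2 (by linarith)
    have hA : (0 : ℝ) ≤ ∑' I : {I : Ideal (𝓞 K) // I ≠ ⊥}, (Ideal.absNorm I.1 : ℝ) ^ (-σ) :=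
      tsum_nonneg fun _ => by positivity
    have hB : ‖dedekindZeta K (σ : ℂ)‖ = ∑' I : {I : Ideal (𝓞 K) // I ≠ ⊥},
        (Ideal.absNorm I.1 : ℝ) ^ (-σ) := by
      rw [← tsum_real K σ hσ, Complex.norm_real, Real.norm_of_nonneg hA]
    rw [← hB, h2 (σ : ℂ) (by simpa using hσ), norm_prod]
    have hC : ∀ j : Fin (Module.finrank ℚ K), ‖∑' m : ℕ, h j m * (m : ℂ) ^ (-(σ : ℂ))‖ ≤
        ∑' m : ℕ, (m : ℝ) ^ (-σ) := by
      intro j
      have hle : ∀ m : ℕ, ‖h j m * (m : ℂ) ^ (-(σ : ℂ))‖ ≤ (m : ℝ) ^ (-σ) := by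
        intro m
        rcases Nat.eq_zero_or_pos m with rfl | hm
        · rw [h0 j]
          simp only [zero_mul, norm_zero]
          positivity
        · rw [norm_mul, Complex.norm_natCast_cpow_of_pos hm]
          simp only [neg_re, ofReal_re]
          exact mul_le_of_le_one_left (by positivity) (h1 j m)
      refine (norm_tsum_le_tsum_norm (Summable.of_nonneg_of_le (fun _ => norm_nonneg _) hle
        hs)).trans ?_
      exact Summable.tsum_le_tsum hle (Summable.of_nonneg_of_le (fun _ => norm_nonneg _) hle hs) hs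
    calc ∏ j : Fin (Module.finrank ℚ K), ‖∑' m : ℕ, h j m * (m : ℂ) ^ (-(σ : ℂ))‖ ≤
        ∏ _j : Fin (Module.finrank ℚ K), ∑' m : ℕ, (m : ℝ) ^ (-σ) :=
          Finset.prod_le_prod (fun _ _ => norm_nonneg _) fun j _ => hC j
      _ = (∑' m : ℕ, (m : ℝ) ^ (-σ)) ^ n := by
          rw [Finset.prod_const, Finset.card_univ, Fintype.card_fin, hn]
  · intro K _ _ f hf
    set Z : ℝ := ∑' I : {I : Ideal (𝓞 K) // I ≠ ⊥}, (Ideal.absNorm I.1 : ℝ) ^ (-(2 : ℝ)) with hZ
    have hZ0 : 0 ≤ Z := tsum_nonneg fun _ => by positivity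
    obtain ⟨k, hk⟩ : ∃ k : ℕ, Z * (2 : ℝ) ^ (-(k : ℝ)) ≤ 1 / 2 := by
      have h1 : Tendsto (fun k : ℕ => Z * ((1 / 2 : ℝ) ^ k)) atTop (𝓝 (Z * 0)) :=
        (tendsto_pow_atTop_nhds_zero_of_lt_one (by norm_num) (by norm_num)).const_mul Z
      rw [mul_zero] at h1
      obtain ⟨k, hk⟩ := (h1.eventually (gt_mem_nhds (by norm_num : (0 : ℝ) < 1 / 2))).exists
      refine ⟨k, ?_⟩
      rw [Real.rpow_neg (by norm_num), Real.rpow_natCast]
      simpa [one_div, inv_pow] using hk.le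
    refine ⟨2 + k, by positivity |> fun h : (0 : ℝ) ≤ (k : ℝ) => by linarith, ?_⟩
    intro χ
    set σ : ℝ := 2 + k with hσ
    have hσ1 : 1 < σ := by
      have : (0 : ℝ) ≤ (k : ℝ) := by positivity
      rw [hσ]
      linarith
    set F : {I : Ideal (𝓞 K) // I ≠ ⊥} → ℂ := fun I =>
      χ.ψ I.1 * (Ideal.absNorm I.1 : ℂ) ^ (-(σ : ℂ)) with hF
    have hFn : ∀ I, ‖F I‖ ≤ (Ideal.absNorm I.1 : ℝ) ^ (-σ) := by
      intro I
      rw [hF]
      simp only [norm_mul]
      rw [norm_cpow I, ofReal_re]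
      exact mul_le_of_le_one_left (by positivity) (psi_le χ I)
    have hsum : Summable F := Summable.of_norm
      (Summable.of_nonneg_of_le (fun _ => norm_nonneg _) hFn (summable_real K σ hσ1))
    classical
    let t : {I : Ideal (𝓞 K) // I ≠ ⊥} := ⟨⊤, top_ne_bot⟩
    have hser : χ.series (σ : ℂ) = F t + ∑' I, ite (I = t) 0 (F I) := by
      unfold HC.series
      exact hsum.tsum_eq_add_tsum_ite t
    have hFt : F t = 1 := by
      rw [hF]
      simp only [t, χ.map_top, Ideal.absNorm_top, Nat.cast_one, Complex.one_cpow, mul_one]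
    have hle : ∀ I, ‖ite (I = t) 0 (F I)‖ ≤
        (2 : ℝ) ^ (-(k : ℝ)) * (Ideal.absNorm I.1 : ℝ) ^ (-(2 : ℝ)) := by
      intro I
      split_ifs with h
      · rw [norm_zero]
        positivity
      · refine (hFn I).trans ?_
        have h2 : 2 ≤ Ideal.absNorm I.1 := by
          have h3 := norm_pos I
          have h4 : Ideal.absNorm I.1 ≠ 1 := by
            intro h5
            exact h (Subtype.ext (Ideal.absNorm_eq_one_iff.mp h5))
          omega
        have h2' : (2 : ℝ) ≤ (Ideal.absNorm I.1 : ℝ) := by exact_mod_cast h2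
        have h0 : (0 : ℝ) < (Ideal.absNorm I.1 : ℝ) := by linarith
        have h5 : -σ = -(k : ℝ) + -(2 : ℝ) := by rw [hσ]; ring
        rw [h5, Real.rpow_add h0]
        refine mul_le_mul_of_nonneg_right ?_ (by positivity)
        exact Real.rpow_le_rpow_of_nonpos (by norm_num) h2' (by
          have : (0 : ℝ) ≤ (k : ℝ) := by positivity
          linarith)
    have hs2 : Summable (fun I : {I : Ideal (𝓞 K) // I ≠ ⊥} =>
        (2 : ℝ) ^ (-(k : ℝ)) * (Ideal.absNorm I.1 : ℝ) ^ (-(2 : ℝ))) :=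
      (summable_real K 2 (by norm_num)).mul_left _
    have hrest : ‖∑' I, ite (I = t) 0 (F I)‖ ≤ 1 / 2 := by
      have hsn := Summable.of_nonneg_of_le (fun I => norm_nonneg _) hle hs2
      refine (norm_tsum_le_tsum_norm hsn).trans ((hsn.tsum_le_tsum hle hs2).trans ?_)
      rw [tsum_mul_left, mul_comm]
      exact hk
    have h6 : χ.series ((2 + (k : ℝ) : ℝ) : ℂ) = 1 + ∑' I, ite (I = t) 0 (F I) := by
      rw [← hFt]
      exact hser
    rw [h6]
    have h7 := norm_sub_le (1 + ∑' I, ite (I = t) 0 (F I)) (∑' I, ite (I = t) 0 (F I))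
    rw [add_sub_cancel_right, norm_one] at h7
    linarith

end Pool.Agent.H77.GLA
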